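import Pool.Agent.helper91.CSS.SpecT

/-!
# css:TQA : the transfer operator on the kernel `q_a`
-/

set_option autoImplicit false

open Complex Metric Set Filter Topology MeasureTheory

noncomputable section

open SPPS (fd fdd pre TT CV Br)

namespace CSS

/-- a finite sum of simple poles with vanishing moments, in terms of the kernels. -/
theorem TQA_alg {ι : Type} (s : Finset ι) (c x : ι → ℂ) (h0 : ∑ i ∈ s, c i = 0)
    (h1 : ∑ i ∈ s, c i * x i = 0) (z : ℂ) :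
    ∑ i ∈ s, c i / (z - x i) = ∑ i ∈ s, c i * EXQ.q (x i) z := by
  have h2 : ∀ i ∈ s, c i * EXQ.q (x i) z =
      c i / (z - x i) + ((c i * x i) * (1 / z) - c i * (1 / z) - (c i * x i) * (1 / (z - 1))) := by
    intro i _
    unfold EXQ.q
    ring
  rw [Finset.sum_congr rfl h2, Finset.sum_add_distrib, Finset.sum_sub_distrib,
    Finset.sum_sub_distrib, ← Finset.sum_mul, ← Finset.sum_mul, ← Finset.sum_mul, h0, h1]
  ring

theorem TQA (hK : EXQ.KER_stmt) (hI : TIN_stmt) (hE : TRE_stmt) (hM : TRM_stmt) : TQA_stmt := by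
  intro f a
  obtain ⟨C, hC⟩ := hK
  have hq : Integrable (EXQ.q a) := (hC a).1
  let ρ : Fin 3 → ℂ := ![1, a - 1, -a]
  let p : Fin 3 → ℂ := ![a, 0, 1]
  have e1 : (fun z : ℂ => ∑ i ∈ (Finset.univ : Finset (Fin 3)), ρ i / (z - p i)) = EXQ.q a := by
    funext z
    rw [Fin.sum_univ_three]
    show 1 / (z - a) + (a - 1) / (z - 0) + -a / (z - 1) = EXQ.q a z
    unfold EXQ.q
    rw [sub_zero, neg_div]
    ring
  have hq' : Integrable (fun z : ℂ => ∑ i ∈ (Finset.univ : Finset (Fin 3)), ρ i / (z - p i)) := by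
    rw [e1]; exact hq
  obtain ⟨σ, hσ⟩ := hE f (Fin 3) Finset.univ ρ p hq'
  rw [e1] at hσ
  obtain ⟨_, hT, _, _⟩ := hI f (EXQ.q a) hq
  -- the exceptional set
  have hfin : (CV f ∪ ((Finset.univ : Finset (Fin 3)).image fun i => f.eval (p i) : Set ℂ)).Finite :=
    f.fin.union (Finset.finite_toSet _)
  have hae : ∀ᵐ z : ℂ, z ∉ CV f ∪ ((Finset.univ : Finset (Fin 3)).image fun i => f.eval (p i) : Set ℂ) := by
    rw [ae_iff]
    refine measure_mono_null ?_ (hfin.countable.measure_zero volume)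
    intro z hz
    exact not_not.1 hz
  -- the rational function
  let c : Fin 3 ⊕ ℂ → ℂ := Sum.elim (fun i => ρ i / fd f (p i)) σ
  let x : Fin 3 ⊕ ℂ → ℂ := Sum.elim (fun i => f.eval (p i)) id
  let S : Finset (Fin 3 ⊕ ℂ) := (Finset.univ : Finset (Fin 3)).disjSum (SV f)
  have e2 : ∀ φ : Fin 3 ⊕ ℂ → ℂ, ∑ j ∈ S, φ j =
      ∑ i ∈ (Finset.univ : Finset (Fin 3)), φ (Sum.inl i) + ∑ v ∈ SV f, φ (Sum.inr v) :=
    fun φ => Finset.sum_disjSum _ _ _
  have hae2 : ∀ᵐ z : ℂ, TT f (EXQ.q a) z = ∑ j ∈ S, c j / (z - x j) := by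
    filter_upwards [hae] with z hz
    rw [e2]
    refine hσ z (fun h => hz (Or.inl h)) (fun i _ h => hz (Or.inr ?_))
    rw [h]
    exact Finset.mem_coe.2 (Finset.mem_image_of_mem _ (Finset.mem_univ i))
  have hint : Integrable (fun z : ℂ => ∑ j ∈ S, c j / (z - x j)) := hT.congr hae2
  obtain ⟨m0, m1⟩ := hM (Fin 3 ⊕ ℂ) S c x hint
  refine ⟨σ, ?_⟩
  filter_upwards [hae2] with z hz
  rw [hz, TQA_alg S c x m0 m1 z, e2, Fin.sum_univ_three]
  show 1 / fd f a * EXQ.q (f.eval a) z + (a - 1) / fd f 0 * EXQ.q (f.eval 0) z +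
    -a / fd f 1 * EXQ.q (f.eval 1) z + ∑ v ∈ SV f, σ v * EXQ.q v z = _
  rw [neg_div]
  ring

end CSS
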